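import Pool.Agent.Helper48.Lang.Goals

/-!
# MP_c7dfba_nt: packet LG-MIN (the minimum principle over the real numbers)
-/

set_option autoImplicit false

namespace Pool.Agent.Helper69.Lang

open MvPolynomial Pool.Agent.Helper48.Lang Filter Topology

theorem eval_mul_hom {N D : ℕ} {P : MvPolynomial (Fin N) ℝ} (hP : P.IsHomogeneous D) (t : ℝ)
    (z : Fin N → ℝ) : eval (fun p => t * z p) P = t ^ D * eval z P := by
  rw [eval_eq', eval_eq', Finset.mul_sum]
  refine Finset.sum_congr rfl fun d hd => ?_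
  have h1 : ∑ p, d p = D := by
    have h2 := hP.degree_eq_sum_deg_support hd
    rw [h2]
    exact (Finset.sum_subset (Finset.subset_univ _)
      (fun i _ hi => Finsupp.notMem_support_iff.1 hi)).symm
  have h3 : ∏ p, (t * z p) ^ d p = t ^ D * ∏ p, z p ^ d p := by
    simp only [mul_pow]
    rw [Finset.prod_mul_distrib, Finset.prod_pow_eq_pow_sum, h1]
  rw [h3]
  ring

/-- the unit sphere. -/
def Sph (N : ℕ) : Set (Fin N → ℝ) := {y | ∑ p, y p ^ 2 = 1}

theorem sph_compact (N : ℕ) : IsCompact (Sph N) := by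
  refine Metric.isCompact_of_isClosed_isBounded ?_ ?_
  · exact isClosed_eq (by fun_prop) continuous_const
  · refine (Metric.isBounded_closedBall (x := (0 : Fin N → ℝ)) (r := 1)).subset ?_
    intro y hy
    rw [mem_closedBall_zero_iff, pi_norm_le_iff_of_nonneg zero_le_one]
    intro p
    rw [Real.norm_eq_abs, ← sq_le_one_iff_abs_le_one]
    have h1 : y p ^ 2 ≤ ∑ p, y p ^ 2 :=
      Finset.single_le_sum (f := fun p => y p ^ 2) (fun i _ => sq_nonneg _) (Finset.mem_univ p)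
    have h2 : ∑ p, y p ^ 2 = 1 := hy
    rw [h2] at h1
    exact h1

theorem sph_nonempty {N : ℕ} (hN : 0 < N) : (Sph N).Nonempty := by
  refine ⟨Pi.single ⟨0, hN⟩ 1, ?_⟩
  change ∑ p, (Pi.single (⟨0, hN⟩ : Fin N) (1 : ℝ) : Fin N → ℝ) p ^ 2 = 1
  rw [Finset.sum_eq_single ⟨0, hN⟩]
  · rw [Pi.single_eq_same]; norm_num
  · intro p _ hp
    rw [Pi.single_eq_of_ne hp]; norm_num
  · intro h
    exact absurd (Finset.mem_univ _) h

/-- the main computation, for `v` in a half-space. -/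
theorem key (hT : S_TAY) {N k : ℕ} (F : Fin k → MvPolynomial (Fin N) ℝ) (x : Fin N → ℝ)
    (hx : ∑ p, x p ^ 2 = 1)
    (hmin : ∀ y : Fin N → ℝ, 1 ≤ ∑ p, y p ^ 2 →
      (∑ l, eval x (F l) ^ 2) * ∑ p, y p ^ 2 ≤ ∑ l, eval y (F l) ^ 2)
    (v : Fin N → ℝ) (hv : ∀ l, D1 (F l) x v = 0) (h0 : 0 ≤ ∑ p, x p * v p) :
    (∑ l, eval x (F l) ^ 2) * ∑ p, v p ^ 2 ≤ ∑ l, eval x (F l) * D2 (F l) x v := by
  choose r hr using fun l => hT N (F l) x v
  set g0 := ∑ l, eval x (F l) ^ 2 with hg0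
  have hg0' : 0 ≤ g0 := Finset.sum_nonneg fun l _ => sq_nonneg _
  set Q := ∑ l, eval x (F l) * D2 (F l) x v with hQ
  set n2 := ∑ p, v p ^ 2 with hn2
  have hn2' : 0 ≤ n2 := Finset.sum_nonneg fun l _ => sq_nonneg _
  let h : ℝ → ℝ := fun e => ∑ l, (2 * eval x (F l) * (r l).eval e + e * D2 (F l) x v ^ 2 / 4
    + e ^ 2 * D2 (F l) x v * (r l).eval e + e ^ 3 * (r l).eval e ^ 2)
  have hcont : Continuous h := by
    refine continuous_finsetSum _ fun l _ => ?_
    have := (r l).continuous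
    fun_prop
  have hineq : ∀ e ∈ Set.Ioi (0 : ℝ), g0 * n2 ≤ Q + e * h e := by
    intro e he
    have he' : 0 < e := he
    have h1 : ∑ p, (x p + e * v p) ^ 2 = 1 + 2 * e * (∑ p, x p * v p) + e ^ 2 * n2 := by
      have : ∀ p, (x p + e * v p) ^ 2 = x p ^ 2 + 2 * e * (x p * v p) + e ^ 2 * v p ^ 2 :=
        fun p => by ring
      rw [Finset.sum_congr rfl fun p _ => this p, Finset.sum_add_distrib, Finset.sum_add_distrib,
        ← Finset.mul_sum, ← Finset.mul_sum, hx]
    have h2 : 1 + e ^ 2 * n2 ≤ ∑ p, (x p + e * v p) ^ 2 := by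
      rw [h1]
      have : 0 ≤ 2 * e * (∑ p, x p * v p) := by positivity
      linarith
    have h3 : 1 ≤ ∑ p, (x p + e * v p) ^ 2 := by
      have : 0 ≤ e ^ 2 * n2 := by positivity
      linarith
    have h4 := hmin (fun p => x p + e * v p) h3
    have h5 : g0 * (1 + e ^ 2 * n2) ≤ ∑ l, eval (fun p => x p + e * v p) (F l) ^ 2 :=
      (mul_le_mul_of_nonneg_left h2 hg0').trans h4
    have h6 : ∑ l, eval (fun p => x p + e * v p) (F l) ^ 2 = g0 + e ^ 2 * Q + e ^ 3 * h e := by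
      have : ∀ l, eval (fun p => x p + e * v p) (F l) ^ 2 = eval x (F l) ^ 2
          + e ^ 2 * (eval x (F l) * D2 (F l) x v)
          + e ^ 3 * (2 * eval x (F l) * (r l).eval e + e * D2 (F l) x v ^ 2 / 4
            + e ^ 2 * D2 (F l) x v * (r l).eval e + e ^ 3 * (r l).eval e ^ 2) := by
        intro l
        rw [hr l e, hv l]
        ring
      rw [Finset.sum_congr rfl fun l _ => this l, Finset.sum_add_distrib,
        Finset.sum_add_distrib, ← Finset.mul_sum, ← Finset.mul_sum]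
    rw [h6] at h5
    have h7 : e ^ 2 * (g0 * n2) ≤ e ^ 2 * (Q + e * h e) := by nlinarith
    exact le_of_mul_le_mul_left h7 (by positivity)
  have hlim : Tendsto (fun e => Q + e * h e) (𝓝[>] 0) (𝓝 (Q + 0 * h 0)) :=
    ((continuous_const.add (continuous_id.mul hcont)).tendsto 0).mono_left nhdsWithin_le_nhds
  rw [zero_mul, add_zero] at hlim
  exact ge_of_tendsto hlim (eventually_nhdsWithin_of_forall hineq)

theorem c_min (hT : S_TAY) : S_MIN := by
  intro N k F D hN hD hF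
  have hcont : Continuous (fun y : Fin N → ℝ => ∑ l, eval y (F l) ^ 2) :=
    continuous_finsetSum _ fun l _ => (MvPolynomial.continuous_eval (F l)).pow 2
  obtain ⟨x, hxS, hxm⟩ := (sph_compact N).exists_isMinOn (sph_nonempty hN) hcont.continuousOn
  have hx : ∑ p, x p ^ 2 = 1 := hxS
  have hg0 : 0 ≤ ∑ l, eval x (F l) ^ 2 := Finset.sum_nonneg fun l _ => sq_nonneg _
  -- (a)
  have hmin : ∀ y : Fin N → ℝ, 1 ≤ ∑ p, y p ^ 2 →
      (∑ l, eval x (F l) ^ 2) * ∑ p, y p ^ 2 ≤ ∑ l, eval y (F l) ^ 2 := by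
    intro y hy
    set s := ∑ p, y p ^ 2 with hs
    have hs0 : 0 < s := by linarith
    set t := Real.sqrt s with ht
    have ht2 : t ^ 2 = s := Real.sq_sqrt hs0.le
    have ht0 : 0 < t := Real.sqrt_pos.2 hs0
    have ht1 : 1 ≤ t := by
      rw [ht, Real.one_le_sqrt]; exact hy
    let z : Fin N → ℝ := fun p => t⁻¹ * y p
    have hz : z ∈ Sph N := by
      change ∑ p, (t⁻¹ * y p) ^ 2 = 1
      simp only [mul_pow]
      rw [← Finset.mul_sum, ← hs, inv_pow, ht2, inv_mul_cancel₀ hs0.ne']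
    have hyz : y = fun p => t * z p := by
      funext p
      change y p = t * (t⁻¹ * y p)
      rw [← mul_assoc, mul_inv_cancel₀ ht0.ne', one_mul]
    have h1 : (∑ l, eval x (F l) ^ 2) ≤ ∑ l, eval z (F l) ^ 2 := hxm hz
    have h2 : ∀ l, s * eval z (F l) ^ 2 ≤ eval y (F l) ^ 2 := by
      intro l
      have h3 : eval y (F l) = t ^ D l * eval z (F l) := by
        rw [← eval_mul_hom (hF l) t z, ← hyz]
      rw [h3, mul_pow, ← ht2]
      refine mul_le_mul_of_nonneg_right ?_ (sq_nonneg (eval z (F l)))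
      refine pow_le_pow_left₀ ht0.le ?_ 2
      calc t = t ^ 1 := (pow_one t).symm
        _ ≤ t ^ D l := pow_le_pow_right₀ ht1 (hD l)
    calc (∑ l, eval x (F l) ^ 2) * s ≤ (∑ l, eval z (F l) ^ 2) * s :=
          mul_le_mul_of_nonneg_right h1 hs0.le
      _ = ∑ l, s * eval z (F l) ^ 2 := by rw [mul_comm, Finset.mul_sum]
      _ ≤ ∑ l, eval y (F l) ^ 2 := Finset.sum_le_sum (fun l _ => h2 l)
  refine ⟨x, hx, fun v hv => ?_⟩
  rcases le_total 0 (∑ p, x p * v p) with h | h
  · exact key hT F x hx hmin v hv h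
  · have e1 : ∀ l, D1 (F l) x (fun p => -v p) = 0 := by
      intro l
      have := hv l
      unfold D1 at this ⊢
      simp only [mul_neg]
      rw [Finset.sum_neg_distrib, this, neg_zero]
    have e2 : ∀ l, D2 (F l) x (fun p => -v p) = D2 (F l) x v := by
      intro l
      unfold D2
      simp only [neg_mul_neg]
    have e3 : 0 ≤ ∑ p, x p * (-v p) := by
      simp only [mul_neg]
      rw [Finset.sum_neg_distrib]
      linarith
    have e4 := key hT F x hx hmin (fun p => -v p) e1 e3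
    simp only [e2, neg_sq] at e4
    exact e4

end Pool.Agent.Helper69.Lang
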